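import Pool.Agent.Lib.MP_c08332_co.Fin

namespace Pool.Agent.Results.MP_c08332_co.LargeSets

theorem result (p : ℕ) (hp : Nat.Prime p) (A : Finset (ZMod p)) (h0 : (0 : ZMod p) ∉ A)
    (hc : p ≤ A.card + 4) :
    ∃ f : Fin A.card → ZMod p,
      Function.Injective f ∧ (∀ i, f i ∈ A) ∧
      Function.Injective
        (fun k : Fin A.card => ((Finset.univ.filter (fun i : Fin A.card => i ≤ k)).sum f)) :=
  have := Fact.mk hp
  Lib.MP_c08332_co.val_big A h0 hc

end Pool.Agent.Results.MP_c08332_co.LargeSets
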