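import Pool.Agent.Lib.MP_c08332_co.Fin

namespace Pool.Agent.Results.MP_c08332_co.NearSymmetric

theorem result (p : ℕ) (hp : Nat.Prime p) (A B : Finset (ZMod p)) (q : ZMod p)
    (h0 : (0 : ZMod p) ∉ A) (hB : ∀ x ∈ B, x ∈ A ∨ x = 0)
    (hs : ∀ x ∈ B, q - x ∈ B ∧ q - x ≠ x)
    (hc : (A \ B).card ≤ 1 ∨ (q = 0 ∧ (A \ B).card ≤ 2)) :
    ∃ f : Fin A.card → ZMod p,
      Function.Injective f ∧ (∀ i, f i ∈ A) ∧
      Function.Injective
        (fun k : Fin A.card => ((Finset.univ.filter (fun i : Fin A.card => i ≤ k)).sum f)) :=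
  have := Fact.mk hp
  Lib.MP_c08332_co.val_near A B q h0 hB hs hc

end Pool.Agent.Results.MP_c08332_co.NearSymmetric
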