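import Pool.Agent.Lib.MP_c08332_co.LocB

set_option autoImplicit false

namespace Pool.Agent.Results.MP_c08332_co.SparseSets

open Pool.Agent.Lib.MP_c08332_co.Loc

/-- A finite subset `A` of any group has an ordering with pairwise distinct partial products as
soon as, for every nonempty `B ⊆ A`, the abelianization of the subgroup generated by `B` is
infinite or has order `m` with `(|B| + 1) ^ (|B| + 1) < 4 ^ |B| * m ^ 2`. -/
theorem result :
    ∀ (G : Type) [Group G] (A : Finset G),
      (∀ B ⊆ A, B.Nonempty → Finite (Abelianization (Subgroup.closure (B : Set G))) →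
        (B.card + 1) ^ (B.card + 1) <
          4 ^ B.card * Nat.card (Abelianization (Subgroup.closure (B : Set G))) ^ 2) →
      ∃ l : List G, l.Nodup ∧ (∀ a, a ∈ l ↔ a ∈ A) ∧
        ∀ i j : ℕ, 1 ≤ i → i < j → j ≤ l.length → (l.take i).prod ≠ (l.take j).prod := by
  intro G _ A hp
  have key : ∀ L : List G, Free L → ∀ i j : ℕ, i < j → j ≤ L.length →
      (L.take i).prod ≠ (L.take j).prod := by
    intro L hL i j hij hj e
    have e1 : L.take j = L.take i ++ (L.take j).drop i := by
      conv_lhs => rw [← List.take_append_drop i (L.take j)]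
      rw [List.take_take, min_eq_left hij.le]
    refine hL ((L.take j).drop i)
      ((List.drop_suffix _ _).isInfix.trans (List.take_prefix _ _).isInfix) (fun h => ?_) ?_
    · have := congrArg List.length h
      simp only [List.length_drop, List.length_take, List.length_nil] at this
      omega
    · rw [e1, List.prod_append] at e
      exact (left_eq_mul.1 e)
  obtain ⟨L, c, a1, a2, a3, a4⟩ := almost _ A rfl hp
  by_cases hc : c ∈ A ∧ c ∉ L
  · refine ⟨c :: L, List.nodup_cons.2 ⟨hc.2, a2⟩, fun a => ⟨fun h => ?_, fun h => ?_⟩, ?_⟩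
    · rcases List.mem_cons.1 h with rfl | h
      · exact hc.1
      · exact a3 a h
    · by_cases e : a = c
      · exact e ▸ List.mem_cons_self
      · exact List.mem_cons_of_mem _ (a4 a h e)
    · intro i j hi hij hj
      obtain ⟨i, rfl⟩ : ∃ n, i = n + 1 := ⟨i - 1, by omega⟩
      obtain ⟨j, rfl⟩ : ∃ n, j = n + 1 := ⟨j - 1, by omega⟩
      simp only [List.take_succ_cons, List.prod_cons, ne_eq, mul_right_inj]
      exact key L a1 i j (by omega) (by simpa using hj)
  · refine ⟨L, a2, fun a => ⟨a3 a, fun h => ?_⟩, fun i j _ => key L a1 i j⟩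
    by_cases e : a = c
    · by_contra h2
      exact hc ⟨e ▸ h, e ▸ h2⟩
    · exact a4 a h e

end Pool.Agent.Results.MP_c08332_co.SparseSets
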